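import Pool.Agent.helper32.EX.SpecD

/-!
# ex:NKM (MP_561ff4_al): the filtration of `U` by heights
-/

set_option autoImplicit false
set_option linter.unusedVariables false
set_option linter.unusedSectionVars false

namespace Pool.Agent.EX

noncomputable section

section
variable {n : ℕ} {C : Matrix (Fin n) (Fin n) ℤ} [hC : Fact (Dyn C)] {F : Type} [Field F]

theorem NKM_ht {α : Rt C} (hα : Pos α) : 1 ≤ ht α := by
  by_contra h
  have h0 : 0 ≤ ht α := Finset.sum_nonneg fun i _ => hα i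
  have h1 : ht α = 0 := by omega
  have h2 := (Finset.sum_eq_zero_iff_of_nonneg fun i _ => hα i).1 h1
  exact ne_zero_of_rt α (funext fun i => h2 i (Finset.mem_univ i))

theorem NKM_Q {α β : Rt C} (hα : Pos α) (hβ : Pos β) : -1 ≤ Q C α.1 β.1 := by
  have h1 := (bd (C := C) α β).1
  by_contra h
  have h2 : Q C α.1 β.1 = -2 := by omega
  have h3 := Q_eq_neg_two h2
  have h4 := NKM_ht hα
  have h5 := NKM_ht hβ
  have h6 : ht β = - ht α := by
    rw [h3]
    simp only [ht, neg_val, Pi.neg_apply, Finset.sum_neg_distrib]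
  omega

theorem NKM_sum {α β : Rt C} (hα : Pos α) (hβ : Pos β) (h : Q C α.1 β.1 = -1) :
    ∃ γ : Rt C, γ.1 = α.1 + β.1 ∧ Pos γ ∧ ht γ = ht α + ht β ∧ 0 ≤ Q C α.1 γ.1 := by
  have h1 : Q C (α.1 + β.1) (α.1 + β.1) = 2 := by
    rw [Q_add_self, h]; norm_num
  refine ⟨⟨α.1 + β.1, h1⟩, rfl, fun i => ?_, ?_, ?_⟩
  · exact add_nonneg (hα i) (hβ i)
  · simp only [ht, Pi.add_apply, Finset.sum_add_distrib]
  · show 0 ≤ Q C α.1 (α.1 + β.1)
    rw [Q_add_right, α.2, h]; norm_num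

theorem NKM_gen (hRCM : RCM_stmt) {k : ℤ} {α : Rt C} (hα : Pos α) (s : F)
    (z : LV C F ≃ₗ[F] LV C F) (hz : z ∈ UK C F k) : xl α s * z * (xl α s)⁻¹ ∈ UK C F k := by
  have key : UK C F k ≤ (UK C F k).comap (MulAut.conj (xl α s)).toMonoidHom := by
    apply (Subgroup.closure_le _).2
    rintro x ⟨β, t, hβ, hk, rfl⟩
    show xl α s * xl β t * (xl α s)⁻¹ ∈ UK C F k
    have hg : xl β t ∈ UK C F k := Subgroup.subset_closure ⟨β, t, hβ, hk, rfl⟩
    obtain ⟨r1, r2⟩ := hRCM C F α β s t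
    rcases (NKM_Q hα hβ).lt_or_eq with h | h
    · rw [r2 (by omega), mul_inv_cancel_right]
      exact hg
    · obtain ⟨γ, g1, g2, g3, g4⟩ := NKM_sum hα hβ h.symm
      rw [r1 γ g1]
      have h5 := NKM_ht hα
      exact Subgroup.mul_mem _ hg (Subgroup.subset_closure ⟨γ, _, g2, by omega, rfl⟩)
  exact key hz

theorem NKM_norm (hRCM : RCM_stmt) (k : ℤ) (u : LV C F ≃ₗ[F] LV C F) (hu : u ∈ UU C F) :
    (∀ z ∈ UK C F k, u * z * u⁻¹ ∈ UK C F k) ∧ ∀ z ∈ UK C F k, u⁻¹ * z * u ∈ UK C F k := by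
  unfold UU at hu
  induction hu using Subgroup.closure_induction with
  | mem x hx =>
    obtain ⟨α, t, hα, rfl⟩ := hx
    refine ⟨fun z hz => NKM_gen hRCM hα t z hz, fun z hz => ?_⟩
    have h1 := NKM_gen hRCM hα (-t) z hz
    rw [xl_neg, inv_inv] at h1
    exact h1
  | one =>
    refine ⟨fun z hz => ?_, fun z hz => ?_⟩
    · rw [one_mul, inv_one, mul_one]; exact hz
    · rw [inv_one, one_mul, mul_one]; exact hz
  | mul x y _ _ hx hy =>
    refine ⟨fun z hz => ?_, fun z hz => ?_⟩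
    · have h1 := hx.1 _ (hy.1 z hz)
      have e : x * (y * z * y⁻¹) * x⁻¹ = x * y * z * (x * y)⁻¹ := by group
      rwa [e] at h1
    · have h1 := hy.2 _ (hx.2 z hz)
      have e : y⁻¹ * (x⁻¹ * z * x) * y = (x * y)⁻¹ * z * (x * y) := by group
      rwa [e] at h1
  | inv x _ hx =>
    refine ⟨fun z hz => ?_, fun z hz => ?_⟩
    · rw [inv_inv]; exact hx.2 z hz
    · rw [inv_inv]; exact hx.1 z hz

end

theorem NKM (hRCM : RCM_stmt) (hSGN : SGN_stmt) : NKM_stmt := by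
  intro n C hC F _ k hk
  refine ⟨fun u hu z hz => (NKM_norm hRCM k u hu).1 z hz, ?_⟩
  intro α β s t hα hβ ha hb
  obtain ⟨r1, r2⟩ := hRCM C F α β s t
  rcases (NKM_Q hα hβ).lt_or_eq with h | h
  · exact ⟨1, Subgroup.one_mem _, by rw [mul_one]; exact r2 (by omega)⟩
  · obtain ⟨γ, g1, g2, g3, g4⟩ := NKM_sum hα hβ h.symm
    have h5 := r1 γ g1
    refine ⟨xl γ ((eps C α.1 β.1 : F) * s * t), Subgroup.subset_closure ⟨γ, _, g2, by omega, rfl⟩, ?_⟩
    have h6 := (hRCM C F α γ s ((eps C α.1 β.1 : F) * s * t)).2 g4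
    rw [mul_assoc, h6, ← mul_assoc, ← h5, inv_mul_cancel_right]

end

end Pool.Agent.EX
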