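import Pool.Agent.helper32.EX.SpecA

/-!
# ex:NNM (MP_561ff4_al): the elements `n_α(t)` are monomial
-/

set_option autoImplicit false
set_option linter.unusedVariables false
set_option linter.unusedSectionVars false

namespace Pool.Agent.EX

noncomputable section

section
variable {n : ℕ} {C : Matrix (Fin n) (Fin n) ℤ} [hC : Fact (Dyn C)] {R : Type} [CommRing R]

theorem NNM_ne_neg {α β : Rt C} (h : -1 ≤ Q C α.1 β.1) : ¬ -α = β := by
  intro h1
  rw [← h1, Q_neg_self] at h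
  omega

theorem NNM_fix {α β : Rt C} (h : 0 ≤ Q C α.1 β.1) (t s : R) : xf α t (ev C β s) = ev C β s := by
  have h1 : ¬ -α = β := NNM_ne_neg (by omega)
  ext γ
  · simp only [xf, ev_fst, ev_snd, if_neg h1, mul_zero, zero_smul, sub_zero]
  · have h2 : ¬ γ.1 - α.1 = β.1 := by
      intro h2
      have h3 : γ.1 = α.1 + β.1 := by rw [← h2]; abel
      have h4 := Q_add_self (C := C) α β
      rw [← h3, γ.2] at h4
      omega
    simp only [xf, ev_fst, bl_zero_left, ext_ev, if_neg h2, ev_snd, if_neg h1, mul_zero, neg_zero, add_zero,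
      ite_self]

theorem NNM_add {α β γ : Rt C} (h : γ.1 = α.1 + β.1) (t s : R) :
    xf α t (ev C β s) = ev C β s + ev C γ (t * (eps C α.1 β.1 : R) * s) := by
  have hq : Q C α.1 β.1 = -1 := by
    have h4 := Q_add_self (C := C) α β
    rw [← h, γ.2] at h4
    omega
  have h1 : ¬ -α = β := NNM_ne_neg (by omega)
  ext δ
  · simp only [xf, ev_fst, ev_snd, if_neg h1, mul_zero, zero_smul, sub_zero, Prod.fst_add, add_zero]
  · simp only [xf, ev_fst, bl_zero_left, ext_ev, ev_snd, if_neg h1, mul_zero, neg_zero, add_zero,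
      ite_self, Prod.snd_add, Pi.add_apply]
    by_cases h2 : δ = γ
    · have h3 : δ.1 - α.1 = β.1 := by rw [h2, h]; abel
      rw [if_pos h3, if_pos h2, h3]
    · have h3 : ¬ δ.1 - α.1 = β.1 := by
        intro h3
        apply h2
        apply Subtype.ext
        rw [h, ← h3]
        abel
      rw [if_neg h3, if_neg h2, mul_zero]

theorem NNM_neg (α : Rt C) (t s : R) :
    xf α t (ev C (-α) s) = ((-(t * s)) • rt R α, 0) + ev C (-α) s + ev C α (t ^ 2 * s) := by
  rw [ev_eq (-α) s, xf_smul, xf_ev_neg]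
  ext γ
  · simp only [Prod.smul_fst, Prod.fst_add, ev_fst, smul_zero, add_zero, Pi.smul_apply, Pi.neg_apply, smul_eq_mul]
    ring
  · simp only [Prod.smul_snd, Prod.snd_add, Pi.smul_apply, Pi.add_apply, ev_snd, smul_eq_mul, Pi.zero_apply, zero_add]
    by_cases h1 : γ = -α
    · have h2 : ¬ γ = α := fun h3 => neg_ne α (h1.symm.trans h3)
      rw [if_pos h1, if_pos h1, if_neg h2]
      ring
    · rw [if_neg h1, if_neg h1]
      split_ifs <;> ring

theorem NNM_h (α : Rt C) (t : R) (h : Fin n → R) :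
    xf α t ((h, 0) : LV C R) = (h, 0) + ev C α (-(t * bl C h (rt R α))) := by
  ext γ
  · simp [xf]
  · simp only [xf, Pi.zero_apply, ext_zero, mul_zero, add_zero, zero_add, Prod.snd_add, Pi.add_apply, ev_snd]

theorem NNM_eps {α β γ : Rt C} (h : γ.1 = α.1 + β.1) : (eps C α.1 β.1 : R) * (eps C α.1 γ.1 : R) = -1 := by
  rw [h, eps_add_right, eps_self]
  have h1 : ((eps C α.1 β.1 * (-1 * eps C α.1 β.1) : ℤ) : R) = ((-1 : ℤ) : R) := by
    have := eps_sq C α.1 β.1
    congr 1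
    linarith
  push_cast at h1 ⊢
  exact h1

theorem NNM_eps_ne (F : Type) [Field F] (v w : Fin n → ℤ) : ((eps C v w : ℤ) : F) ≠ 0 := by
  rcases eps_or C v w with h | h <;> rw [h] <;> simp

end

section
variable {n : ℕ} {C : Matrix (Fin n) (Fin n) ℤ} [hC : Fact (Dyn C)] {F : Type} [Field F]

theorem NNM_c0 {α β : Rt C} (h : Q C α.1 β.1 = 0) (t : F) :
    nn α t (ev C β 1) = ev C (rf α β) 1 := by
  have e : rf α β = β := Subtype.ext (by show β.1 - Q C α.1 β.1 • α.1 = β.1; rw [h]; simp)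
  rw [e]
  have h' : 0 ≤ Q C (-α).1 β.1 := by rw [neg_val, Q_neg_left, h]; simp
  show xf α t (xf (-α) t⁻¹ (xf α t (ev C β 1))) = ev C β 1
  rw [NNM_fix h.ge, NNM_fix h', NNM_fix h.ge]

theorem NNM_cm1 {α β : Rt C} (h : Q C α.1 β.1 = -1) {t : F} (ht : t ≠ 0) :
    nn α t (ev C β 1) = ev C (rf α β) (t * (eps C α.1 β.1 : F)) := by
  set γ := rf α β with hγ
  have e : γ.1 = α.1 + β.1 := by
    show β.1 - Q C α.1 β.1 • α.1 = α.1 + β.1
    rw [h]; simp [add_comm]
  have e' : β.1 = (-α).1 + γ.1 := by rw [e, neg_val]; abel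
  have h1 : 0 ≤ Q C (-α).1 β.1 := by rw [neg_val, Q_neg_left, h]; norm_num
  have h2 : 0 ≤ Q C α.1 γ.1 := by rw [e, Q_add_right, α.2, h]; norm_num
  show xf α t (xf (-α) t⁻¹ (xf α t (ev C β 1))) = _
  rw [NNM_add e, xf_add, NNM_fix h1, NNM_add e']
  have e4 : t⁻¹ * (eps C (-α).1 γ.1 : F) * (t * (eps C α.1 β.1 : F) * 1) = -1 := by
    rw [neg_val, eps_neg_left]
    have := NNM_eps (R := F) e
    field_simp
    linear_combination this
  rw [e4, mul_one, add_left_comm, ← ev_add, add_neg_cancel, ev_zero, add_zero, NNM_fix h2]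

theorem NNM_c1 {α β : Rt C} (h : Q C α.1 β.1 = 1) {t : F} (ht : t ≠ 0) :
    nn α t (ev C β 1) = ev C (rf α β) (t⁻¹ * (eps C α.1 β.1 : F)) := by
  set γ := rf α β with hγ
  have e : γ.1 = (-α).1 + β.1 := by
    show β.1 - Q C α.1 β.1 • α.1 = -α.1 + β.1
    rw [h, one_smul]; abel
  have e' : β.1 = α.1 + γ.1 := by rw [e, neg_val]; abel
  have h1 : 0 ≤ Q C α.1 β.1 := by omega
  show xf α t (xf (-α) t⁻¹ (xf α t (ev C β 1))) = _
  rw [NNM_fix h1, NNM_add e, xf_add, NNM_fix h1, NNM_add e']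
  have e4 : t * (eps C α.1 γ.1 : F) * (t⁻¹ * (eps C (-α).1 β.1 : F) * 1) = -1 := by
    rw [neg_val, eps_neg_left]
    have := NNM_eps (R := F) e'
    field_simp
    linear_combination this
  rw [e4, mul_one, add_left_comm, ← ev_add, add_neg_cancel, ev_zero, add_zero, neg_val, eps_neg_left]

theorem NNM_smul_pair (h : Fin n → F) (c : F) : ((c • h, 0) : LV C F) = c • ((h, 0) : LV C F) := by
  ext γ
  · rfl
  · simp

theorem NNM_c2 (α : Rt C) {t : F} (ht : t ≠ 0) : nn α t (ev C α 1) = ev C (-α) (t⁻¹ ^ 2) := by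
  have h1 : 0 ≤ Q C α.1 α.1 := by rw [α.2]; norm_num
  have h2 := NNM_neg (-α) t⁻¹ (1 : F)
  rw [rt_neg_neg] at h2
  show xf α t (xf (-α) t⁻¹ (xf α t (ev C α 1))) = _
  rw [NNM_fix h1, h2, xf_add, xf_add, NNM_fix h1, NNM_neg, NNM_h]
  have e1 : bl C ((-(t⁻¹ * 1)) • rt F (-α)) (rt F α) = t⁻¹ * 2 := by
    rw [rt_neg, bl_smul_left, bl_neg_left, bl_rt, α.2]
    push_cast
    ring
  rw [e1]
  ext γ
  · simp only [Prod.fst_add, ev_fst, add_zero, Pi.add_apply, Pi.smul_apply, rt_neg, Pi.neg_apply, smul_eq_mul,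
      Pi.zero_apply]
    field_simp
    ring
  · simp only [Prod.snd_add, Pi.add_apply, ev_snd, Pi.zero_apply]
    by_cases h3 : γ = -α
    · have h4 : ¬ γ = α := fun h5 => neg_ne α (h3.symm.trans h5)
      simp only [if_pos h3, if_neg h4]
      ring
    · simp only [if_neg h3]
      by_cases h4 : γ = α
      · simp only [if_pos h4]
        field_simp
        ring
      · simp only [if_neg h4]
        ring

theorem NNM_cm2 (α : Rt C) {t : F} (ht : t ≠ 0) : nn α t (ev C (-α) 1) = ev C α (t ^ 2) := by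
  have h1 : 0 ≤ Q C α.1 α.1 := by rw [α.2]; norm_num
  have h1' : 0 ≤ Q C (-α).1 (-α).1 := by rw [(-α).2]; norm_num
  have h2 := NNM_neg (-α) t⁻¹ (t ^ 2 * 1 : F)
  rw [rt_neg_neg] at h2
  show xf α t (xf (-α) t⁻¹ (xf α t (ev C (-α) 1))) = _
  rw [NNM_neg, xf_add (-α), xf_add (-α), NNM_fix h1', h2, NNM_h]
  have e1 : bl C ((-(t * 1)) • rt F α) (rt F (-α)) = t * 2 := by
    rw [rt_neg, bl_smul_left, bl_neg_right, bl_rt, α.2]
    push_cast
    ring
  have key : ((-(t * 1)) • rt F α, (0 : Rt C → F)) + ev C (-α) (-(t⁻¹ * bl C ((-(t * 1)) • rt F α) (rt F (-α)))) +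
      ev C (-α) 1 + (((-(t⁻¹ * (t ^ 2 * 1))) • rt F (-α), 0) + ev C α (t ^ 2 * 1) +
      ev C (-α) (t⁻¹ ^ 2 * (t ^ 2 * 1))) = ev C α (t ^ 2) := by
    rw [e1]
    ext γ
    · simp only [Prod.fst_add, ev_fst, add_zero, Pi.add_apply, Pi.smul_apply, rt_neg, Pi.neg_apply, smul_eq_mul,
        Pi.zero_apply]
      field_simp
      ring
    · simp only [Prod.snd_add, Pi.add_apply, ev_snd, Pi.zero_apply]
      by_cases h3 : γ = -α
      · have h4 : ¬ γ = α := fun h5 => neg_ne α (h3.symm.trans h5)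
        simp only [if_pos h3, if_neg h4]
        field_simp
        ring
      · simp only [if_neg h3]
        by_cases h4 : γ = α
        · simp only [if_pos h4]
          ring
        · simp only [if_neg h4]
          ring
  rw [key, NNM_fix h1]

theorem NNM_mono (α : Rt C) {t : F} (ht : t ≠ 0) : Mono (nn α t) (rfe α) := by
  intro β
  rw [rfe_apply]
  obtain ⟨b1, b2⟩ := bd (C := C) α β
  have h5 : Q C α.1 β.1 = -2 ∨ Q C α.1 β.1 = -1 ∨ Q C α.1 β.1 = 0 ∨ Q C α.1 β.1 = 1 ∨ Q C α.1 β.1 = 2 := by omega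
  rcases h5 with h | h | h | h | h
  · have e := Q_eq_neg_two h
    subst e
    have e2 : rf α (-α) = α := by
      apply Subtype.ext
      show -α.1 - Q C α.1 (-α.1) • α.1 = α.1
      rw [Q_neg_right, α.2]
      funext i
      simp only [Pi.sub_apply, Pi.smul_apply, smul_eq_mul, Pi.neg_apply]
      ring
    rw [e2]
    exact ⟨t ^ 2, pow_ne_zero 2 ht, NNM_cm2 α ht⟩
  · exact ⟨_, mul_ne_zero ht (NNM_eps_ne F _ _), NNM_cm1 h ht⟩
  · exact ⟨1, one_ne_zero, NNM_c0 h t⟩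
  · exact ⟨_, mul_ne_zero (inv_ne_zero ht) (NNM_eps_ne F _ _), NNM_c1 h ht⟩
  · have e := Q_eq_two h
    subst e
    have e2 : rf β β = -β := by
      apply Subtype.ext
      show β.1 - Q C β.1 β.1 • β.1 = -β.1
      rw [β.2]
      funext i
      simp only [Pi.sub_apply, Pi.smul_apply, smul_eq_mul, Pi.neg_apply]
      ring
    rw [e2]
    exact ⟨t⁻¹ ^ 2, pow_ne_zero 2 (inv_ne_zero ht), NNM_c2 β ht⟩

end

theorem NNM : NNM_stmt := by
  intro n C hC F _ α t ht
  refine ⟨NNM_mono α ht, ?_⟩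
  unfold nn
  exact Subgroup.mul_mem _ (Subgroup.mul_mem _ (xl_mem α t) (xl_mem (-α) t⁻¹)) (xl_mem α t)

end

end Pool.Agent.EX
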